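import Pool.Agent.Helper99.SI.StD

set_option autoImplicit false

namespace Pool.Agent.Helper6.SI

open Pool.Agent.Helper99.SI

/-! ### Finitely supported vectors -/

lemma norm_sq_of_finsupp {ι : Type} (x : L2 ι) (v : ι →₀ ℂ) (h : ∀ i, x i = v i) :
    ‖x‖ ^ 2 = nsq v := by
  have h1 := lp.norm_rpow_eq_tsum (p := 2) (by norm_num) x
  have h2 : (2 : ENNReal).toReal = 2 := by norm_num
  rw [h2] at h1
  have h3 : ‖x‖ ^ 2 = ∑' i, ‖x i‖ ^ 2 := by
    have h4 : ∀ a : ℝ, a ^ (2 : ℝ) = a ^ 2 := fun a => by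
      rw [← Real.rpow_natCast]
      norm_num
    simpa only [h4] using h1
  rw [h3, nsq, Finsupp.sum]
  rw [tsum_eq_sum (s := v.support)]
  · exact Finset.sum_congr rfl fun i _ => by rw [h]
  · intro i hi
    rw [h, Finsupp.notMem_support_iff.1 hi, norm_zero]
    norm_num

lemma finsum_lc {ι ι' : Type} (a : ι → (ι' →₀ ℂ)) (v : ι →₀ ℂ) (k : ι') :
    ∑ᶠ i, a i k * v i = Finsupp.linearCombination ℂ a v k := by
  rw [Finsupp.linearCombination_apply, Finsupp.sum, Finsupp.finset_sum_apply]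
  rw [finsum_eq_sum_of_support_subset (s := v.support)]
  · refine Finset.sum_congr rfl fun i _ => ?_
    rw [Finsupp.smul_apply, smul_eq_mul, mul_comm]
  · intro i hi
    rw [Function.mem_support] at hi
    rw [Finset.mem_coe, Finsupp.mem_support_iff]
    intro h0
    exact hi (by rw [h0, mul_zero])

lemma op_coord {ι ι' : Type} {T : L2 ι →L[ℂ] L2 ι'} {a : ι → (ι' →₀ ℂ)} (hT : IsOp T a)
    (z : L2 ι) (v : ι →₀ ℂ) (h : ∀ i, z i = v i) (k : ι') :
    T z k = Finsupp.linearCombination ℂ a v k := by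
  rw [hT z k, ← finsum_lc]
  exact finsum_congr fun i => by rw [h]

section two

variable {n r : ℕ}

lemma injl : Function.Injective (fun μ : W n => (Sum.inl (Sum.inl μ) : Idx n r)) :=
  fun a b h => Sum.inl_injective (Sum.inl_injective h)

lemma injr : Function.Injective (fun μ : W n => (Sum.inl (Sum.inr μ) : Idx n r)) :=
  fun a b h => Sum.inr_injective (Sum.inl_injective h)

/-- The vector with coordinates p on the first copy and conj q on the second copy. -/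
noncomputable def pr (r : ℕ) (p q : W n →₀ ℂ) : Idx n r →₀ ℂ :=
  p.mapDomain (fun μ => Sum.inl (Sum.inl μ)) +
    (q.mapRange star (star_zero ℂ)).mapDomain (fun μ => Sum.inl (Sum.inr μ))

lemma pr_l (p q : W n →₀ ℂ) (ν : W n) : pr r p q (Sum.inl (Sum.inl ν)) = p ν := by
  unfold pr
  rw [Finsupp.add_apply, Finsupp.mapDomain_apply injl, Finsupp.mapDomain_notin_range, add_zero]
  rintro ⟨x, hx⟩
  simp at hx

lemma pr_r (p q : W n →₀ ℂ) (ν : W n) : pr r p q (Sum.inl (Sum.inr ν)) = star (q ν) := by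
  unfold pr
  rw [Finsupp.add_apply, Finsupp.mapDomain_apply injr, Finsupp.mapDomain_notin_range, zero_add,
    Finsupp.mapRange_apply]
  rintro ⟨x, hx⟩
  simp at hx

lemma pr_f (p q : W n →₀ ℂ) (a : Fin r) : pr r p q (Sum.inr a) = 0 := by
  unfold pr
  rw [Finsupp.add_apply, Finsupp.mapDomain_notin_range, Finsupp.mapDomain_notin_range, add_zero]
  · rintro ⟨x, hx⟩
    simp at hx
  · rintro ⟨x, hx⟩
    simp at hx

lemma nsq_mapDomain {ι ι' : Type} (f : ι → ι') (hf : Function.Injective f) (p : ι →₀ ℂ) :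
    nsq (p.mapDomain f) = nsq p := by
  unfold nsq
  rw [Finsupp.sum_mapDomain_index_inj hf]

lemma nsq_star {ι : Type} (p : ι →₀ ℂ) :
    nsq (p.mapRange star (star_zero ℂ)) = nsq p := by
  unfold nsq
  rw [Finsupp.sum_mapRange_index]
  · refine Finset.sum_congr rfl fun i _ => ?_
    simp only [norm_star]
  · intro i
    simp

lemma nsq_pr (p q : W n →₀ ℂ) : nsq (pr r p q) = nsq p + nsq q := by
  classical
  have hd : Disjoint (p.mapDomain fun μ => (Sum.inl (Sum.inl μ) : Idx n r)).support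
      ((q.mapRange star (star_zero ℂ)).mapDomain
        fun μ => (Sum.inl (Sum.inr μ) : Idx n r)).support := by
    rw [Finset.disjoint_left]
    intro i h1 h2
    have h3 := Finsupp.mapDomain_support h1
    have h4 := Finsupp.mapDomain_support h2
    rw [Finset.mem_image] at h3 h4
    obtain ⟨a, -, ha⟩ := h3
    obtain ⟨b, -, hb⟩ := h4
    rw [← hb] at ha
    simp at ha
  have h1 : nsq (pr r p q) = nsq (p.mapDomain fun μ => (Sum.inl (Sum.inl μ) : Idx n r)) +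
      nsq ((q.mapRange star (star_zero ℂ)).mapDomain
        fun μ => (Sum.inl (Sum.inr μ) : Idx n r)) := by
    unfold nsq pr
    rw [Finsupp.sum_add_index_of_disjoint hd]
  rw [h1, nsq_mapDomain _ injl, nsq_mapDomain _ injr, nsq_star]

/-- Operators which respect the two copies. -/
lemma lc_pr (a : Idx n r → (Idx n r →₀ ℂ)) (a₀ : W n → (W n →₀ ℂ)) (M : ℕ)
    (h1 : ∀ ν : W n, M ≤ ν.length →
      a (Sum.inl (Sum.inl ν)) = (a₀ ν).mapDomain fun μ => Sum.inl (Sum.inl μ))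
    (h2 : ∀ ν : W n, M ≤ ν.length → a (Sum.inl (Sum.inr ν)) =
      ((a₀ ν).mapRange star (star_zero ℂ)).mapDomain fun μ => Sum.inl (Sum.inr μ))
    (p q : W n →₀ ℂ) (hp : ∀ ν, p ν ≠ 0 → M ≤ ν.length) (hq : ∀ ν, q ν ≠ 0 → M ≤ ν.length) :
    Finsupp.linearCombination ℂ a (pr r p q) =
      pr r (Finsupp.linearCombination ℂ a₀ p) (Finsupp.linearCombination ℂ a₀ q) := by
  unfold pr
  rw [map_add]
  congr 1
  · rw [Finsupp.linearCombination_mapDomain, Finsupp.linearCombination_apply, Finsupp.sum,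
      Finsupp.linearCombination_apply, Finsupp.sum, Finsupp.mapDomain_finset_sum]
    refine Finset.sum_congr rfl fun ν hν => ?_
    rw [Finsupp.mapDomain_smul]
    simp only [Function.comp]
    rw [h1 ν (hp ν (Finsupp.mem_support_iff.1 hν))]
  · rw [Finsupp.linearCombination_mapDomain, Finsupp.linearCombination_apply,
      Finsupp.sum_mapRange_index (fun _ => by rw [zero_smul])]
    have h3 : (Finsupp.linearCombination ℂ a₀ q).mapRange star (star_zero ℂ) =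
        ∑ ν ∈ q.support, star (q ν) • (a₀ ν).mapRange star (star_zero ℂ) := by
      ext μ
      rw [Finsupp.mapRange_apply, Finsupp.linearCombination_apply, Finsupp.sum,
        Finsupp.finset_sum_apply, Finsupp.finset_sum_apply, star_sum]
      refine Finset.sum_congr rfl fun ν _ => ?_
      rw [Finsupp.smul_apply, Finsupp.smul_apply, Finsupp.mapRange_apply, smul_eq_mul,
        smul_eq_mul, star_mul']
    rw [h3, Finsupp.mapDomain_finset_sum, Finsupp.sum]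
    refine Finset.sum_congr rfl fun ν hν => ?_
    rw [Finsupp.mapDomain_smul]
    simp only [Function.comp]
    rw [h2 ν (hq ν (Finsupp.mem_support_iff.1 hν))]

end two

/-! ### The Gram form -/

section form

variable {n r : ℕ} (n1 : ℕ) (K : W n → ℝ → (L2 (Idx n r) →L[ℂ] L2 (Idx n r)))

lemma Gop_inner (u : ℝ) (y z : L2 (Idx n r)) :
    (inner ℂ y (Gop n1 K u z)).re = (inner ℂ y z).re +
      ∑ j ∈ Finset.Ico 1 n1, ∑ κ : Fin j → Fin n, u ^ (-2 * (j : ℤ)) *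
        (inner ℂ (K (List.ofFn κ) (u ^ n1) y) (K (List.ofFn κ) (u ^ n1) z)).re := by
  unfold Gop
  rw [ContinuousLinearMap.add_apply, ContinuousLinearMap.one_apply, inner_add_right,
    Complex.add_re]
  congr 1
  rw [ContinuousLinearMap.sum_apply, inner_sum, Complex.re_sum]
  refine Finset.sum_congr rfl fun j _ => ?_
  rw [ContinuousLinearMap.sum_apply, inner_sum, Complex.re_sum]
  refine Finset.sum_congr rfl fun κ _ => ?_
  rw [ContinuousLinearMap.smul_apply, inner_smul_right, ContinuousLinearMap.comp_apply,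
    ContinuousLinearMap.adjoint_inner_right]
  have h1 : ((u : ℂ) ^ (-2 * (j : ℤ))) = ((u ^ (-2 * (j : ℤ)) : ℝ) : ℂ) := by
    push_cast
    rfl
  rw [h1, Complex.re_ofReal_mul]

/-- The quadratic form of the Gram operator. -/
noncomputable def Qf (u : ℝ) (z : L2 (Idx n r)) : ℝ :=
  ‖z‖ ^ 2 + ∑ j ∈ Finset.Ico 1 n1, ∑ κ : Fin j → Fin n, u ^ (-2 * (j : ℤ)) *
    ‖K (List.ofFn κ) (u ^ n1) z‖ ^ 2

lemma re_self {E : Type} [NormedAddCommGroup E] [InnerProductSpace ℂ E] (x : E) :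
    (inner ℂ x x).re = ‖x‖ ^ 2 := inner_self_eq_norm_sq (𝕜 := ℂ) x

lemma Gop_self (u : ℝ) (z : L2 (Idx n r)) :
    (inner ℂ z (Gop n1 K u z)).re = Qf n1 K u z := by
  rw [Gop_inner, Qf]
  simp only [re_self]

lemma Qf_ge (u : ℝ) (hu : 0 < u) (z : L2 (Idx n r)) : ‖z‖ ^ 2 ≤ Qf n1 K u z := by
  unfold Qf
  have h : 0 ≤ ∑ j ∈ Finset.Ico 1 n1, ∑ κ : Fin j → Fin n, u ^ (-2 * (j : ℤ)) *
      ‖K (List.ofFn κ) (u ^ n1) z‖ ^ 2 := by
    refine Finset.sum_nonneg fun j _ => Finset.sum_nonneg fun κ _ => ?_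
    exact mul_nonneg (zpow_nonneg hu.le _) (sq_nonneg _)
  linarith

lemma two_re_le {E : Type} [NormedAddCommGroup E] [InnerProductSpace ℂ E] (u : ℝ)
    (hu : 0 < u) (a b : E) : 2 * (inner ℂ a b).re ≤ u * ‖a‖ ^ 2 + u⁻¹ * ‖b‖ ^ 2 := by
  have h1 : (inner ℂ a b).re ≤ ‖a‖ * ‖b‖ :=
    (Complex.re_le_norm _).trans (norm_inner_le_norm _ _)
  have h2 : u * ‖a‖ ^ 2 + u⁻¹ * ‖b‖ ^ 2 - 2 * (‖a‖ * ‖b‖) = u⁻¹ * (u * ‖a‖ - ‖b‖) ^ 2 := by
    field_simp
    ring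
  have h3 : 0 ≤ u⁻¹ * (u * ‖a‖ - ‖b‖) ^ 2 := mul_nonneg (inv_nonneg.2 hu.le) (sq_nonneg _)
  linarith

lemma form_cs (u : ℝ) (hu : 0 < u) (y w : L2 (Idx n r)) :
    2 * (inner ℂ y (Gop n1 K u w)).re ≤ u * Qf n1 K u y + u⁻¹ * Qf n1 K u w := by
  rw [Gop_inner, mul_add]
  unfold Qf
  have h1 := two_re_le u hu y w
  have h2 : 2 * ∑ j ∈ Finset.Ico 1 n1, ∑ κ : Fin j → Fin n, u ^ (-2 * (j : ℤ)) *
        (inner ℂ (K (List.ofFn κ) (u ^ n1) y) (K (List.ofFn κ) (u ^ n1) w)).re ≤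
      u * ∑ j ∈ Finset.Ico 1 n1, ∑ κ : Fin j → Fin n, u ^ (-2 * (j : ℤ)) *
        ‖K (List.ofFn κ) (u ^ n1) y‖ ^ 2 +
      u⁻¹ * ∑ j ∈ Finset.Ico 1 n1, ∑ κ : Fin j → Fin n, u ^ (-2 * (j : ℤ)) *
        ‖K (List.ofFn κ) (u ^ n1) w‖ ^ 2 := by
    rw [Finset.mul_sum, Finset.mul_sum, Finset.mul_sum, ← Finset.sum_add_distrib]
    refine Finset.sum_le_sum fun j _ => ?_
    rw [Finset.mul_sum, Finset.mul_sum, Finset.mul_sum, ← Finset.sum_add_distrib]
    refine Finset.sum_le_sum fun κ _ => ?_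
    have h3 := two_re_le u hu (K (List.ofFn κ) (u ^ n1) y) (K (List.ofFn κ) (u ^ n1) w)
    have h4 : 0 ≤ u ^ (-2 * (j : ℤ)) := zpow_nonneg hu.le _
    have h5 := mul_le_mul_of_nonneg_left h3 h4
    calc _ = u ^ (-2 * (j : ℤ)) * (2 * (inner ℂ (K (List.ofFn κ) (u ^ n1) y)
          (K (List.ofFn κ) (u ^ n1) w)).re) := by ring
      _ ≤ _ := h5
      _ = _ := by ring
  linarith

/-- The final estimate, abstract form. -/
lemma final_est (u s : ℝ) (hu : 0 < u) (hu1 : u ≤ 1) (hs : 0 ≤ s) (hs1 : s ≤ 1)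
    (z w : L2 (Idx n r)) (hQ : Qf n1 K u w ≤ u ^ 2 * Qf n1 K u z) :
    (1 - s * u) * ‖z‖ ^ 2 ≤ (inner ℂ z (Gop n1 K u (z - (s : ℂ) • w))).re := by
  have h1 := form_cs n1 K u hu z w
  have h2 : u⁻¹ * Qf n1 K u w ≤ u * Qf n1 K u z := by
    have := mul_le_mul_of_nonneg_left hQ (inv_nonneg.2 hu.le)
    calc _ ≤ _ := this
      _ = _ := by field_simp
  have h3 : (inner ℂ z (Gop n1 K u w)).re ≤ u * Qf n1 K u z := by linarith
  have h4 := Qf_ge n1 K u hu z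
  rw [map_sub, map_smul, inner_sub_right, inner_smul_right, Complex.sub_re,
    Complex.re_ofReal_mul, Gop_self]
  have h5 : s * (inner ℂ z (Gop n1 K u w)).re ≤ s * (u * Qf n1 K u z) :=
    mul_le_mul_of_nonneg_left h3 hs
  have h6 : 0 ≤ 1 - s * u := by nlinarith
  have h7 := mul_le_mul_of_nonneg_left h4 h6
  calc _ ≤ _ := h7
    _ = Qf n1 K u z - s * (u * Qf n1 K u z) := by ring
    _ ≤ _ := by linarith

end form

/-! ### Coordinates of K and Ph -/

section sys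

variable {n : ℕ} {L : Type} [Ring L] [Algebra ℂ L] [StarRing L] (D : Sys n L)

lemma lc_lin (f : L →ₗ[ℂ] L) (p : W n →₀ ℂ) :
    Finsupp.linearCombination ℂ (fun ν => D.cf (f (D.w ν))) p = D.cf (f (D.emb p)) := by
  have h : Finsupp.linearCombination ℂ (fun ν => D.cf (f (D.w ν))) =
      D.cf ∘ₗ f ∘ₗ D.emb := by
    refine Finsupp.lhom_ext' fun ν => LinearMap.ext_ring ?_
    simp only [LinearMap.comp_apply, Finsupp.lsingle_apply, Sys.emb]
    rw [Finsupp.linearCombination_single, Finsupp.linearCombination_single, one_smul, one_smul]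
  rw [h]
  rfl

lemma K_norm {r M4 : ℕ} {κ : W n} {t : ℝ} {T : L2 (Idx n r) →L[ℂ] L2 (Idx n r)}
    (hT : IsOp T (D.kcol r M4 t κ)) (z : L2 (Idx n r)) (p q : W n →₀ ℂ)
    (hz : ∀ i, z i = pr r p q i) (hp : ∀ ν, p ν ≠ 0 → M4 ≤ ν.length)
    (hq : ∀ ν, q ν ≠ 0 → M4 ≤ ν.length) :
    ‖T z‖ ^ 2 = nsq (D.cf (star (D.b.ev (t : ℂ) (D.w κ)) * D.emb p)) +
      nsq (D.cf (star (D.b.ev (t : ℂ) (D.w κ)) * D.emb q)) := by
  have h0 : ∀ p : W n →₀ ℂ,
      Finsupp.linearCombination ℂ (fun ν => D.cf (star (D.b.ev (t : ℂ) (D.w κ)) * D.w ν)) p =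
      D.cf (star (D.b.ev (t : ℂ) (D.w κ)) * D.emb p) := fun p =>
    lc_lin D (LinearMap.mulLeft ℂ (star (D.b.ev (t : ℂ) (D.w κ)))) p
  have h1 : ∀ k, T z k = pr r (D.cf (star (D.b.ev (t : ℂ) (D.w κ)) * D.emb p))
      (D.cf (star (D.b.ev (t : ℂ) (D.w κ)) * D.emb q)) k := by
    intro k
    rw [op_coord hT z _ hz, lc_pr (D.kcol r M4 t κ)
      (fun ν => D.cf (star (D.b.ev (t : ℂ) (D.w κ)) * D.w ν)) M4 (fun ν hν => if_pos hν)
      (fun ν hν => if_pos hν) p q hp hq, h0, h0]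
  rw [norm_sq_of_finsupp _ _ h1, nsq_pr]

lemma Q_pr [StarModule ℂ L] [Nontrivial L] (hA0 : StA0) (hA3 : StA3) {r n1 M4 : ℕ}
    (hn1 : 1 ≤ n1) (K : W n → ℝ → (L2 (Idx n r) →L[ℂ] L2 (Idx n r)))
    (hK : ∀ κ : W n, κ.length ≤ n1 → ∀ t : ℝ, 0 < t → IsOp (K κ t) (D.kcol r M4 t κ))
    (u : ℝ) (hu : 0 < u) (z : L2 (Idx n r)) (p q : W n →₀ ℂ)
    (hz : ∀ i, z i = pr r p q i) (hp : ∀ ν, p ν ≠ 0 → M4 ≤ ν.length)
    (hq : ∀ ν, q ν ≠ 0 → M4 ≤ ν.length) :
    Qf n1 K u z = D.Nu n1 u p + D.Nu n1 u q := by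
  have h0 : ∀ p : W n →₀ ℂ,
      D.cf (star (D.b.ev ((u ^ n1 : ℝ) : ℂ) (D.w [])) * D.emb p) = p := by
    intro p
    have h1 : D.w [] = 1 := by simp [Sys.w, wd]
    rw [h1, (hA0 L D.b).2.2.1, star_one, one_mul, (hA3 n L D).2.1]
  have h1 : ∀ p : W n →₀ ℂ, ∑ κ : Fin 0 → Fin n, u ^ (-2 * ((0 : ℕ) : ℤ)) *
      nsq (D.cf (star (D.b.ev ((u ^ n1 : ℝ) : ℂ) (D.w (List.ofFn κ))) * D.emb p)) = nsq p := by
    intro p
    rw [Fintype.sum_unique, List.ofFn_zero, h0]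
    simp
  unfold Qf Sys.Nu
  rw [Finset.sum_range_eq_add_Ico _ hn1, Finset.sum_range_eq_add_Ico _ hn1, h1, h1,
    norm_sq_of_finsupp z _ hz, nsq_pr]
  have h2 : ∑ j ∈ Finset.Ico 1 n1, ∑ κ : Fin j → Fin n, u ^ (-2 * (j : ℤ)) *
      ‖K (List.ofFn κ) (u ^ n1) z‖ ^ 2 =
      ∑ j ∈ Finset.Ico 1 n1, ∑ κ : Fin j → Fin n, u ^ (-2 * (j : ℤ)) *
        nsq (D.cf (star (D.b.ev ((u ^ n1 : ℝ) : ℂ) (D.w (List.ofFn κ))) * D.emb p)) +
      ∑ j ∈ Finset.Ico 1 n1, ∑ κ : Fin j → Fin n, u ^ (-2 * (j : ℤ)) *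
        nsq (D.cf (star (D.b.ev ((u ^ n1 : ℝ) : ℂ) (D.w (List.ofFn κ))) * D.emb q)) := by
    rw [← Finset.sum_add_distrib]
    refine Finset.sum_congr rfl fun j hj => ?_
    rw [← Finset.sum_add_distrib]
    refine Finset.sum_congr rfl fun κ _ => ?_
    have hlen : (List.ofFn κ).length ≤ n1 := by
      rw [List.length_ofFn]
      exact (Finset.mem_Ico.1 hj).2.le
    rw [K_norm D (hK (List.ofFn κ) hlen (u ^ n1) (pow_pos hu _)) z p q hz hp hq, mul_add]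
  rw [h2]
  ring

lemma star_ev (t : ℝ) (y : L) [StarModule ℂ L] (Z : Finset ℤ)
    (hZ : ∀ j ∉ Z, D.b.p j y = 0) :
    star (D.b.ev (t : ℂ) y) = ∑ j ∈ Z, (t : ℂ) ^ j • star (D.b.p j y) := by
  have h1 : D.b.ev (t : ℂ) y = ∑ j ∈ Z, (t : ℂ) ^ j • D.b.p j y := by
    change ∑ᶠ j : ℤ, (t : ℂ) ^ j • D.b.p j y = _
    rw [finsum_eq_sum_of_support_subset]
    intro j hj
    rw [Function.mem_support] at hj
    by_contra hjZ
    rw [Finset.mem_coe] at hjZ
    exact hj (by rw [hZ j hjZ, smul_zero])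
  rw [h1, star_sum]
  refine Finset.sum_congr rfl fun j _ => ?_
  rw [star_smul]
  congr 1
  rw [star_zpow₀]
  congr 1
  exact Complex.conj_ofReal t

/-- The columns of A_t. -/
lemma At_col [StarModule ℂ L] (m : MData n L) (hzx : ∀ j ∉ m.Z, ∀ i, D.b.p j (D.x i) = 0)
    (t : ℝ) (p : W n →₀ ℂ) :
    Finsupp.linearCombination ℂ (fun ν => ∑ j ∈ m.Z, (t : ℂ) ^ j • D.acol j ν) p =
      D.At t p := by
  let f : L →ₗ[ℂ] L := ∑ i, (LinearMap.mulRight ℂ (D.x i)) ∘ₗ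
    (LinearMap.mulLeft ℂ (star (D.b.ev (t : ℂ) (D.x i))))
  have hf : ∀ s, f s = ∑ i, star (D.b.ev (t : ℂ) (D.x i)) * s * D.x i := by
    intro s
    simp only [f, LinearMap.sum_apply, LinearMap.comp_apply, LinearMap.mulRight_apply,
      LinearMap.mulLeft_apply]
  have h1 : (fun ν => ∑ j ∈ m.Z, (t : ℂ) ^ j • D.acol j ν) = fun ν => D.cf (f (D.w ν)) := by
    funext ν
    unfold Sys.acol
    rw [hf]
    simp only [← map_smul]
    rw [← map_sum]
    congr 1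
    simp only [Finset.smul_sum]
    rw [Finset.sum_comm]
    refine Finset.sum_congr rfl fun i _ => ?_
    rw [star_ev D t (D.x i) m.Z fun j hj => hzx j hj i, Finset.sum_mul, Finset.sum_mul]
    refine Finset.sum_congr rfl fun j _ => ?_
    rw [smul_mul_assoc, smul_mul_assoc]
  rw [h1, lc_lin, hf]
  rfl

/-- The coordinates of Ph z. -/
lemma Ph_coord [StarModule ℂ L] {X0 : Set L} (m : MData n L) (hm : IsModel D X0 m) {t : ℝ}
    {T : L2 (Idx n m.r) →L[ℂ] L2 (Idx n m.r)} (hT : IsOp T (m.Fc t)) (z : L2 (Idx n m.r))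
    (p q : W n →₀ ℂ) (hz : ∀ i, z i = pr m.r p q i) (hp : ∀ ν, p ν ≠ 0 → m.M2 ≤ ν.length)
    (hq : ∀ ν, q ν ≠ 0 → m.M2 ≤ ν.length) (k : Idx n m.r) :
    T z k = pr m.r (D.At t p) (D.At t q) k := by
  rw [op_coord hT z _ hz, lc_pr (m.Fc t) (fun ν => ∑ j ∈ m.Z, (t : ℂ) ^ j • D.acol j ν) m.M2
    ?_ ?_ p q hp hq, At_col D m hm.zx, At_col D m hm.zx]
  · intro ν hν
    unfold MData.Fc
    rw [Finsupp.mapDomain_finset_sum]
    refine Finset.sum_congr rfl fun j hj => ?_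
    rw [hm.long1 j hj ν hν, Finsupp.mapDomain_smul]
  · intro ν hν
    unfold MData.Fc
    have h1 : (∑ j ∈ m.Z, (t : ℂ) ^ j • D.acol j ν).mapRange star (star_zero ℂ) =
        ∑ j ∈ m.Z, (t : ℂ) ^ j • (D.acol j ν).mapRange star (star_zero ℂ) := by
      ext μ
      rw [Finsupp.mapRange_apply, Finsupp.finset_sum_apply, Finsupp.finset_sum_apply, star_sum]
      refine Finset.sum_congr rfl fun j _ => ?_
      rw [Finsupp.smul_apply, Finsupp.smul_apply, Finsupp.mapRange_apply, smul_eq_mul,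
        smul_eq_mul, star_mul', star_zpow₀]
      congr 2
      exact Complex.conj_ofReal t
    rw [h1, Finsupp.mapDomain_finset_sum]
    refine Finset.sum_congr rfl fun j hj => ?_
    rw [hm.long2 j hj ν hν, Finsupp.mapDomain_smul]

/-- Lengths in A_t p. -/
lemma At_len [StarModule ℂ L] {X0 : Set L} (m : MData n L) (hm : IsModel D X0 m) {t : ℝ}
    {c M4 : ℕ} (hc : ∀ j i i', m.F j i i' ≠ 0 → ilen i' ≤ ilen i + c ∧ ilen i ≤ ilen i' + c)
    (hM : m.M2 ≤ M4) (p : W n →₀ ℂ) (hp : ∀ ν, p ν ≠ 0 → M4 + c ≤ ν.length) (μ : W n)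
    (hμ : D.At t p μ ≠ 0) : M4 ≤ μ.length := by
  rw [← At_col D m hm.zx, Finsupp.linearCombination_apply, Finsupp.sum,
    Finsupp.finset_sum_apply] at hμ
  obtain ⟨ν, hν, h1⟩ := Finset.exists_ne_zero_of_sum_ne_zero hμ
  have hνl := hp ν (Finsupp.mem_support_iff.1 hν)
  rw [Finsupp.smul_apply, smul_eq_mul] at h1
  have h2 := right_ne_zero_of_mul h1
  rw [Finsupp.finset_sum_apply] at h2
  obtain ⟨j, hj, h3⟩ := Finset.exists_ne_zero_of_sum_ne_zero h2
  rw [Finsupp.smul_apply, smul_eq_mul] at h3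
  have h4 := right_ne_zero_of_mul h3
  have h5 : m.F j (Sum.inl (Sum.inl ν)) (Sum.inl (Sum.inl μ)) ≠ 0 := by
    rw [hm.long1 j hj ν (by omega)]
    rw [Finsupp.mapDomain_apply injl]
    exact h4
  have h6 := (hc j _ _ h5).2
  change ν.length ≤ μ.length + c at h6
  omega

end sys

/-! ### Density -/

lemma density {ι : Type} (z : L2 ι) (f g : L2 ι → ℝ) (hf : Continuous f) (hg : Continuous g)
    (h : ∀ (y : L2 ι) (v : ι →₀ ℂ), (∀ i, y i = v i) → (∀ i, z i = 0 → v i = 0) →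
      f y ≤ g y) : f z ≤ g z := by
  classical
  have h1 : HasSum (fun i => lp.single 2 i (z i)) z := lp.hasSum_single (by norm_num) z
  have h2 : Filter.Tendsto (fun s : Finset ι => f (∑ i ∈ s, lp.single 2 i (z i)))
      Filter.atTop (nhds (f z)) := (hf.tendsto z).comp h1
  have h3 : Filter.Tendsto (fun s : Finset ι => g (∑ i ∈ s, lp.single 2 i (z i)))
      Filter.atTop (nhds (g z)) := (hg.tendsto z).comp h1
  refine le_of_tendsto_of_tendsto' h2 h3 fun s => ?_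
  refine h _ (∑ i ∈ s, Finsupp.single i (z i)) ?_ ?_
  · intro k
    rw [lp.coeFn_sum, Finset.sum_apply, Finsupp.finset_sum_apply]
    refine Finset.sum_congr rfl fun i _ => ?_
    rw [lp.single_apply, Finsupp.single_apply, Pi.single_apply]
    by_cases hik : k = i
    · subst hik
      simp
    · rw [if_neg hik, if_neg (Ne.symm hik)]
  · intro k hk
    rw [Finsupp.finset_sum_apply]
    refine Finset.sum_eq_zero fun i _ => ?_
    rw [Finsupp.single_apply]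
    split_ifs with hik
    · rw [hik, hk]
    · rfl

theorem hD7 (h1 : StA0) (h2 : StA1) (h3 : StA3) (h4 : StD6) : StD7 := by
  intro n L _ _ _ _ _ D X0 m n1 M4 hm hL4 hM K Ph hK hPh
  obtain ⟨c, hc⟩ := hm.band
  refine ⟨M4 + c, Nat.le_add_right _ _, ?_⟩
  intro u hu hu1 s hs hs1 z hz
  have hn1 := hL4.n1pos
  have hM3 : 0 < M4 + c := by
    have := hL4.le
    omega
  have hPhi := hPh (u ^ n1) (pow_pos hu _)
  refine density z (fun z => (1 - s * u) * ‖z‖ ^ 2)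
    (fun z => (inner ℂ z (Gop n1 K u (z - (s : ℂ) • Ph (u ^ n1) z))).re) ?_ ?_ ?_
  · fun_prop
  · refine Complex.continuous_re.comp (Continuous.inner continuous_id ?_)
    fun_prop
  intro y v hy hv
  -- split v
  have hv0 : ∀ i, ilen i < M4 + c → v i = 0 := fun i hi => hv i (hz i hi)
  let p : W n →₀ ℂ := v.comapDomain (fun μ => Sum.inl (Sum.inl μ)) injl.injOn
  let q : W n →₀ ℂ := (v.comapDomain (fun μ => Sum.inl (Sum.inr μ)) injr.injOn).mapRange star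
    (star_zero ℂ)
  have hyp : ∀ i, y i = pr m.r p q i := by
    intro i
    rw [hy]
    rcases i with (ν | ν) | a
    · rw [pr_l]
      rfl
    · rw [pr_r]
      change _ = star (star (v (Sum.inl (Sum.inr ν))))
      rw [star_star]
    · rw [pr_f]
      exact hv0 _ hM3
  have hp3 : ∀ ν, p ν ≠ 0 → M4 + c ≤ ν.length := by
    intro ν hν
    by_contra hlt
    exact hν (hv0 (Sum.inl (Sum.inl ν)) (not_le.1 hlt))
  have hq3 : ∀ ν, q ν ≠ 0 → M4 + c ≤ ν.length := by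
    intro ν hν
    by_contra hlt
    apply hν
    change star (v (Sum.inl (Sum.inr ν))) = 0
    rw [hv0 (Sum.inl (Sum.inr ν)) (not_le.1 hlt), star_zero]
  have hp4 : ∀ ν, p ν ≠ 0 → M4 ≤ ν.length := fun ν hν =>
    (Nat.le_add_right _ _).trans (hp3 ν hν)
  have hq4 : ∀ ν, q ν ≠ 0 → M4 ≤ ν.length := fun ν hν =>
    (Nat.le_add_right _ _).trans (hq3 ν hν)
  have hAp : ∀ μ, D.At (u ^ n1) p μ ≠ 0 → M4 ≤ μ.length := fun μ hμ =>
    At_len D m hm hc hM p hp3 μ hμ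
  have hAq : ∀ μ, D.At (u ^ n1) q μ ≠ 0 → M4 ≤ μ.length := fun μ hμ =>
    At_len D m hm hc hM q hq3 μ hμ
  have hPy : ∀ k, Ph (u ^ n1) y k = pr m.r (D.At (u ^ n1) p) (D.At (u ^ n1) q) k := fun k =>
    Ph_coord D m hm hPhi y p q hyp (fun ν hν => hM.trans (hp4 ν hν))
      (fun ν hν => hM.trans (hq4 ν hν)) k
  have hQ1 := Q_pr D h1 h3 hn1 K hK u hu y p q hyp hp4 hq4
  have hQ2 := Q_pr D h1 h3 hn1 K hK u hu (Ph (u ^ n1) y) _ _ hPy hAp hAq
  have hQ : Qf n1 K u (Ph (u ^ n1) y) ≤ u ^ 2 * Qf n1 K u y := by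
    have e1 := h4 n L D n1 M4 hL4 u hu hu1 p hp4 hAp
    have e2 := h4 n L D n1 M4 hL4 u hu hu1 q hq4 hAq
    rw [hQ1, hQ2]
    linarith
  exact final_est n1 K u s hu hu1 hs hs1 y _ hQ

end Pool.Agent.Helper6.SI
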