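import Pool.Agent.Helper99.SI.StM

set_option autoImplicit false

namespace Pool.Agent.Helper6.SI

open Pool.Agent.Helper99.SI
open LaurentPolynomial

lemma emI_inj {n M r : ℕ} : Function.Injective (emI : Id' n M r → Idx n r) :=
  Function.Injective.sumMap
    (Function.Injective.sumMap Subtype.val_injective Subtype.val_injective)
    Function.injective_id

lemma evA_eq (t : ℂ) (a : AA) (Z : Finset ℤ) (h : ∀ j ∉ Z, a.coeff j = 0) :
    evA t a = ∑ j ∈ Z, t ^ j * a.coeff j := by
  unfold evA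
  rw [Finsupp.sum_of_support_subset a.coeff (s := Z)]
  · exact Finset.sum_congr rfl fun j _ => mul_comm _ _
  · intro j hj
    by_contra hZ
    exact (Finsupp.mem_support_iff.1 hj) (h j hZ)
  · intro j _
    rw [zero_mul]

lemma evl_eq {L : Type} [Ring L] [Algebra ℂ L] (t : ℂ) (y : LL L) (Z : Finset ℤ)
    (h : ∀ j ∉ Z, y.coeff j = 0) : evl t y = ∑ j ∈ Z, t ^ j • y.coeff j := by
  unfold evl
  rw [Finsupp.sum_of_support_subset y.coeff (s := Z)]
  · intro j hj
    by_contra hZ
    exact (Finsupp.mem_support_iff.1 hj) (h j hZ)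
  · intro j _
    rw [smul_zero]

section

variable {n : ℕ} {L : Type} [Ring L] [Algebra ℂ L] [StarRing L] {D : Sys n L} {X0 : Set L}
  {M r : ℕ}

/-- Elements of Y in coordinates. -/
lemma repr_sum (B : YBas D X0 M r) (y : LL L) (hy : y ∈ D.YY X0) :
    ((B.B.repr ⟨y, hy⟩).sum fun i a => a • D.fam M B.b i) = y := by
  have h1 := B.B.linearCombination_repr ⟨y, hy⟩
  have h2 := congrArg (fun u : D.YY X0 => (u : LL L)) h1
  simp only [Finsupp.linearCombination_apply] at h2
  rw [Finsupp.sum, Submodule.coe_sum] at h2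
  rw [Finsupp.sum]
  refine Eq.trans ?_ h2
  refine Finset.sum_congr rfl fun i _ => ?_
  rw [Submodule.coe_smul, B.hB]

lemma evl_sum (t : ℂ) (hadd : ∀ y z : LL L, evl t (y + z) = evl t y + evl t z)
    (hsmul : ∀ (a : AA) (y : LL L), evl t (a • y) = evA t a • evl t y)
    {ι : Type} (c : ι →₀ AA) (e : ι → LL L) :
    evl t (c.sum fun i a => a • e i) = c.sum fun i a => evA t a • evl t (e i) := by
  have h0 : evl t (0 : LL L) = 0 := by
    unfold evl
    exact Finsupp.sum_zero_index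
  let f : LL L →+ L := { toFun := evl t, map_zero' := h0, map_add' := hadd }
  have h1 : ∀ y, evl t y = f y := fun _ => rfl
  rw [h1, Finsupp.sum, map_sum, Finsupp.sum]
  refine Finset.sum_congr rfl fun i _ => ?_
  rw [← h1, hsmul]

lemma co_eq (B : YBas D X0 M r) (j : ℤ) (y : LL L) (hy : y ∈ D.YY X0) :
    B.co j y = ((B.B.repr ⟨y, hy⟩).mapRange (fun a : AA => a.coeff j) (by simp)).mapDomain
      emI := by
  unfold YBas.co
  rw [dif_pos hy]

lemma coeff_zero (B : YBas D X0 M r) (j : ℤ) (y : LL L) (hy : y ∈ D.YY X0)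
    (h : B.co j y = 0) (i : Id' n M r) : (B.B.repr ⟨y, hy⟩ i).coeff j = 0 := by
  rw [co_eq B j y hy] at h
  have h1 := DFunLike.congr_fun h (emI i)
  rw [Finsupp.mapDomain_apply emI_inj, Finsupp.mapRange_apply, Finsupp.zero_apply] at h1
  exact h1

lemma lc_co (B : YBas D X0 M r) (g : Idx n r → L) (j : ℤ) (y : LL L)
    (hy : y ∈ D.YY X0) :
    Finsupp.linearCombination ℂ g (B.co j y) =
      (B.B.repr ⟨y, hy⟩).sum fun i a => a.coeff j • g (emI i) := by
  rw [co_eq B j y hy, Finsupp.linearCombination_mapDomain, Finsupp.linearCombination_apply]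
  rw [Finsupp.sum_mapRange_index]
  · rfl
  · intro i
    rw [zero_smul]

/-- Evaluation of coordinates, abstract form. -/
lemma lc_eval (B : YBas D X0 M r) (g : Idx n r → L) (t : ℂ) (Z : Finset ℤ)
    (hadd : ∀ y z : LL L, evl t (y + z) = evl t y + evl t z)
    (hsmul : ∀ (a : AA) (y : LL L), evl t (a • y) = evA t a • evl t y)
    (hfam : ∀ i : Id' n M r, evl t (D.fam M B.b i) = g (emI i))
    (y : LL L) (hy : y ∈ D.YY X0) (hco : ∀ j ∉ Z, B.co j y = 0) :
    Finsupp.linearCombination ℂ g (∑ j ∈ Z, t ^ j • B.co j y) = evl t y := by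
  rw [map_sum]
  have e1 : ∀ j ∈ Z, Finsupp.linearCombination ℂ g (t ^ j • B.co j y) =
      ∑ i ∈ (B.B.repr ⟨y, hy⟩).support,
        (t ^ j * (B.B.repr ⟨y, hy⟩ i).coeff j) • g (emI i) := by
    intro j _
    rw [map_smul, lc_co B g j y hy, Finsupp.sum, Finset.smul_sum]
    refine Finset.sum_congr rfl fun i _ => ?_
    rw [smul_smul]
  rw [Finset.sum_congr rfl e1, Finset.sum_comm]
  have e3 := congrArg (evl t) (repr_sum B y hy)
  rw [evl_sum t hadd hsmul] at e3
  rw [← e3, Finsupp.sum]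
  refine Finset.sum_congr rfl fun i _ => ?_
  rw [← Finset.sum_smul, hfam,
    evA_eq t _ Z fun j hj => coeff_zero B j y hy (hco j hj) i]

end

theorem hM11 (h1 : StM0) (h2 : StM7) : StM11 := by
  intro n L _ _ _ _ _ D X0 M M2 r B Z hMod hF hb
  classical
  obtain ⟨hfin, hX0, h1X, hM1, hMM, hpos, hlev⟩ := hMod
  obtain ⟨-, -, -, -, -, -, hevadd, hevsmul, hevbt, hevC, -, -⟩ := h1 L D.b
  obtain ⟨hPY, -, -, -, -, -, -, -, -, hevPhi, -, -⟩ := h2 n L D X0 hX0
  let g : ℝ → Idx n r → L := fun t => (B.mk' M2 Z).piT D t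
  -- evaluation of the standard family
  have hfam : ∀ (t : ℝ) (i : Id' n M r), evl (t : ℂ) (D.fam M B.b i) = g t (emI i) := by
    intro t i
    rcases i with (ν | ν) | a
    · change evl (t : ℂ) (D.b.bt (D.w ν.1)) =
        if M ≤ ν.1.length then D.b.ev (t : ℂ) (D.w ν.1) else 0
      rw [if_pos ν.2, hevbt]
    · change evl (t : ℂ) (C (star (D.w ν.1))) =
        if M ≤ ν.1.length then star (D.w ν.1) else 0
      rw [if_pos ν.2, hevC]
    · change evl (t : ℂ) (B.b a) = ∑ j ∈ Z, (t : ℂ) ^ j • (B.b a).coeff j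
      exact evl_eq _ _ Z fun j hj => hb j hj a
  have hfirst : ∀ (t : ℝ) (y : LL L), 0 < t → y ∈ D.YY X0 → (∀ j ∉ Z, B.co j y = 0) →
      Finsupp.linearCombination ℂ (g t) (∑ j ∈ Z, (t : ℂ) ^ j • B.co j y) =
        evl (t : ℂ) y := by
    intro t y ht hy hco
    have ht0 : (t : ℂ) ≠ 0 := by exact_mod_cast ht.ne'
    exact lc_eval B (g t) (t : ℂ) Z (hevadd t) (fun a y => hevsmul t a y ht0) (hfam t) y hy hco
  refine ⟨hfirst, ?_⟩
  intro t ht
  have ht0 : (t : ℂ) ≠ 0 := by exact_mod_cast ht.ne'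
  let Fs : ℤ → Idx n r → (Idx n r →₀ ℂ) := fun j i => (B.mk' M2 Z).F j i
  let Fc : Idx n r → (Idx n r →₀ ℂ) := fun i => ∑ j ∈ Z, (t : ℂ) ^ j • Fs j i
  have hFs : ∀ j i, Fs j i = if h : ∃ i' : Id' n M r, emI i' = i then
      B.co j (D.PhiL (D.fam M B.b h.choose)) else 0 := by
    intro j i
    change (if h : ∃ i' : Id' n M r, emI i' = i then
      B.co j (D.PhiL (D.fam M B.b h.choose)) else 0) = _
    rfl
  suffices H : ∀ z : Idx n r →₀ ℂ, Finsupp.linearCombination ℂ (g t)
      (Finsupp.linearCombination ℂ Fc z) =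
      D.Phi t (Finsupp.linearCombination ℂ (g t) z) by
    intro z
    exact H z
  have hlin : (Finsupp.linearCombination ℂ (g t)) ∘ₗ (Finsupp.linearCombination ℂ Fc) =
      (D.Phi t) ∘ₗ (Finsupp.linearCombination ℂ (g t)) := by
    refine Finsupp.lhom_ext' fun i => LinearMap.ext_ring ?_
    simp only [LinearMap.comp_apply, Finsupp.lsingle_apply]
    rw [Finsupp.linearCombination_single, Finsupp.linearCombination_single, one_smul, one_smul]
    by_cases hi : ∃ i' : Id' n M r, emI i' = i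
    · obtain ⟨i', rfl⟩ := hi
      have e3 : ∀ j, Fs j (emI i') = B.co j (D.PhiL (D.fam M B.b i')) := by
        intro j
        have hex : ∃ i'' : Id' n M r, (emI i'' : Idx n r) = emI i' := ⟨i', rfl⟩
        rw [hFs, dif_pos hex]
        have e4 : hex.choose = i' := emI_inj hex.choose_spec
        rw [e4]
      have hmem : D.fam M B.b i' ∈ D.YY X0 := by
        rw [← B.hB i']
        exact (B.B i').2
      have e5 : Fc (emI i') =
          ∑ j ∈ Z, (t : ℂ) ^ j • B.co j (D.PhiL (D.fam M B.b i')) := by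
        refine Finset.sum_congr rfl fun j _ => ?_
        rw [e3 j]
      rw [e5, hfirst t _ ht (hPY _ hmem) (fun j hj => by rw [← e3 j]; exact hF j hj _),
        hevPhi t _ ht0, hfam]
    · have e3 : Fc i = 0 := by
        refine Finset.sum_eq_zero fun j _ => ?_
        rw [hFs, dif_neg hi, smul_zero]
      have e5 : g t i = 0 := by
        rcases i with (ν | ν) | a
        · change (if M ≤ ν.length then D.b.ev (t : ℂ) (D.w ν) else 0) = 0
          rw [if_neg]
          intro hν
          exact hi ⟨Sum.inl (Sum.inl ⟨ν, hν⟩), rfl⟩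
        · change (if M ≤ ν.length then star (D.w ν) else 0) = 0
          rw [if_neg]
          intro hν
          exact hi ⟨Sum.inl (Sum.inr ⟨ν, hν⟩), rfl⟩
        · exact absurd ⟨Sum.inr a, rfl⟩ hi
      rw [e3, e5, map_zero, map_zero]
  intro z
  exact LinearMap.congr_fun hlin z

end Pool.Agent.Helper6.SI
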