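import Pool.Agent.Helper99.SI.StS

set_option autoImplicit false

namespace Pool.Agent.Helper6.SI

open Pool.Agent.Helper99.SI

section coercive

variable {K : Type} [NormedAddCommGroup K] [InnerProductSpace ℂ K]

lemma coer_bound (A : K →L[ℂ] K) (c : ℝ)
    (h : ∀ z : K, c * ‖z‖ ^ 2 ≤ (inner ℂ z (A z)).re) (z : K) : c * ‖z‖ ≤ ‖A z‖ := by
  rcases eq_or_ne z 0 with rfl | hz
  · simp
  · have h1 := h z
    have h2 : (inner ℂ z (A z)).re ≤ ‖z‖ * ‖A z‖ :=
      (Complex.re_le_norm _).trans (norm_inner_le_norm _ _)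
    have h3 : 0 < ‖z‖ := norm_pos_iff.2 hz
    have h4 : ‖z‖ * (c * ‖z‖) ≤ ‖z‖ * ‖A z‖ := by
      calc ‖z‖ * (c * ‖z‖) = c * ‖z‖ ^ 2 := by ring
        _ ≤ _ := h1.trans h2
    exact le_of_mul_le_mul_left h4 h3

lemma coer_bij [CompleteSpace K] (A : K →L[ℂ] K) (c : ℝ) (hc : 0 < c)
    (h : ∀ z : K, c * ‖z‖ ^ 2 ≤ (inner ℂ z (A z)).re) : Function.Bijective A := by
  have hb := coer_bound A c h
  have hanti : AntilipschitzWith (Real.toNNReal c)⁻¹ A := by
    refine A.antilipschitz_of_bound ?_
    intro z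
    rw [NNReal.coe_inv, Real.coe_toNNReal c hc.le, inv_mul_eq_div, le_div_iff₀ hc, mul_comm]
    exact hb z
  have hcl : IsClosed (Set.range A) := hanti.isClosed_range A.uniformContinuous
  refine ⟨hanti.injective, ?_⟩
  let R : Submodule ℂ K := LinearMap.range (A : K →ₗ[ℂ] K)
  have hRc : IsClosed (R : Set K) := by
    have h1 : (R : Set K) = Set.range A := by
      ext y
      simp [R]
    rw [h1]
    exact hcl
  have hRC : CompleteSpace R := hRc.completeSpace_coe
  have hbot : Rᗮ = ⊥ := by
    rw [Submodule.eq_bot_iff]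
    intro z hz
    rw [Submodule.mem_orthogonal'] at hz
    have h1 := hz (A z) ⟨z, rfl⟩
    have h2 := h z
    rw [h1, Complex.zero_re] at h2
    have h3 : ‖z‖ ^ 2 ≤ 0 := by
      by_contra h4
      push Not at h4
      have := mul_pos hc h4
      linarith
    have h4 : ‖z‖ = 0 := by
      have := sq_nonneg ‖z‖
      have h5 : ‖z‖ ^ 2 = 0 := le_antisymm h3 this
      exact pow_eq_zero_iff (two_ne_zero) |>.1 h5
    exact norm_eq_zero.1 h4
  have htop : R = ⊤ := (Submodule.orthogonal_eq_bot_iff).1 hbot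
  intro y
  have hy : y ∈ R := by rw [htop]; trivial
  obtain ⟨x, hx⟩ := hy
  exact ⟨x, hx⟩

end coercive

section main

variable {H : Type} [NormedAddCommGroup H] [InnerProductSpace ℂ H]
  {ι : Type} (e : ι → H)

lemma mem_orth_iff (z : H) :
    z ∈ (Submodule.span ℂ (Set.range e))ᗮ ↔ ∀ i, inner ℂ (e i) z = 0 := by
  rw [Submodule.mem_orthogonal]
  constructor
  · intro h i
    exact h _ (Submodule.subset_span ⟨i, rfl⟩)
  · intro h u hu
    induction hu using Submodule.span_induction with
    | mem x hx =>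
      obtain ⟨i, rfl⟩ := hx
      exact h i
    | zero => simp
    | add x y _ _ hx hy => rw [inner_add_left, hx, hy, add_zero]
    | smul a x _ hx => rw [inner_smul_left, hx, mul_zero]

lemma coer_zero [Fintype ι] (T : H →L[ℂ] H) (hT : Coer e T) (v : H) (hv : ∀ i, inner ℂ (e i) v = 0)
    (a : ι → ℂ) (h : T v = ∑ i, a i • e i) : v = 0 := by
  obtain ⟨c, hc, hco⟩ := hT
  have h1 := hco v hv
  have h2 : inner ℂ v (T v) = 0 := by
    rw [h, inner_sum]
    refine Finset.sum_eq_zero fun i _ => ?_
    rw [inner_smul_right, ← inner_conj_symm, hv i]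
    simp
  rw [h2, Complex.zero_re] at h1
  have h3 : ‖v‖ ^ 2 ≤ 0 := by
    by_contra h4
    push Not at h4
    have := mul_pos hc h4
    linarith
  have h5 : ‖v‖ ^ 2 = 0 := le_antisymm h3 (sq_nonneg _)
  exact norm_eq_zero.1 (pow_eq_zero_iff (two_ne_zero) |>.1 h5)

end main

theorem hS1 : StS1 := by
  intro H _ _ _ ι _ _ e he T hT
  classical
  have hlin := he.linearIndependent
  -- existence
  let V : Submodule ℂ H := Submodule.span ℂ (Set.range e)
  let K : Submodule ℂ H := Vᗮ
  have hKc : CompleteSpace K := (Submodule.isClosed_orthogonal V).completeSpace_coe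
  have hVf : FiniteDimensional ℂ V := FiniteDimensional.span_of_finite ℂ (Set.finite_range e)
  have hVc : CompleteSpace V := FiniteDimensional.complete ℂ V
  let _ : V.HasOrthogonalProjection := inferInstance
  have hex : ∃ S : Matrix ι ι ℂ, SchurRel e T S := by
    obtain ⟨c, hc, hco⟩ := hT
    let A : K →L[ℂ] K := (K.orthogonalProjectionOnto).comp (T.comp K.subtypeL)
    have hA : ∀ z : K, c * ‖z‖ ^ 2 ≤ (inner ℂ z (A z)).re := by
      intro z
      have h1 := hco (z : H) ((mem_orth_iff e (z : H)).1 z.2)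
      have h2 : inner ℂ z (A z) = inner ℂ (z : H) (T z) := by
        change inner ℂ z (K.orthogonalProjectionOnto (T z)) = _
        rw [Submodule.inner_orthogonalProjectionOnto_eq_of_mem_left]
      rw [h2]
      exact h1
    have hbij := coer_bij A c hc hA
    have hw : ∀ j, ∃ w : K, A w = - K.orthogonalProjectionOnto (T (e j)) := fun j => hbij.2 _
    choose w hw using hw
    have hV : ∀ j, T (e j + w j) ∈ V := by
      intro j
      have h1 : T (e j + w j) ∈ Kᗮ := by
        rw [← Submodule.orthogonalProjectionOnto_eq_zero_iff, map_add, map_add]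
        have h2 : K.orthogonalProjectionOnto (T (w j)) = A (w j) := rfl
        rw [h2, hw j]
        simp
      have h3 : Kᗮ = V := Submodule.orthogonal_orthogonal V
      rw [← h3]
      exact h1
    have hS : ∀ j, ∃ s : ι → ℂ, ∑ i, s i • e i = T (e j + w j) := by
      intro j
      exact (Submodule.mem_span_range_iff_exists_fun ℂ).1 (hV j)
    choose s hs using hS
    exact ⟨fun i j => s j i, fun j => w j, fun i j => (mem_orth_iff e _).1 (w j).2 i,
      fun j => (hs j).symm⟩
  obtain ⟨S, hS⟩ := hex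
  refine ⟨S, hS, ?_⟩
  intro S' hS'
  obtain ⟨w, hw0, hw⟩ := hS
  obtain ⟨w', hw0', hw'⟩ := hS'
  have hd : ∀ j, w' j = w j := by
    intro j
    have h1 : w' j - w j = 0 := by
      refine coer_zero e T hT (w' j - w j) ?_ (fun i => S' i j - S i j) ?_
      · intro i
        rw [inner_sub_right, hw0' i j, hw0 i j, sub_zero]
      · have h2 : w' j - w j = (e j + w' j) - (e j + w j) := by abel
        rw [h2, map_sub, hw' j, hw j, ← Finset.sum_sub_distrib]
        refine Finset.sum_congr rfl fun i _ => ?_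
        rw [sub_smul]
    exact sub_eq_zero.1 h1
  ext i j
  have h1 : ∑ i, (S' i j - S i j) • e i = 0 := by
    have h2 : T (e j + w' j) - T (e j + w j) = 0 := by rw [hd j, sub_self]
    rw [hw' j, hw j, ← Finset.sum_sub_distrib] at h2
    rw [← h2]
    refine Finset.sum_congr rfl fun i _ => ?_
    rw [sub_smul]
  have h3 := (Fintype.linearIndependent_iff.1 hlin) (fun i => S' i j - S i j) h1 i
  exact sub_eq_zero.1 h3

end Pool.Agent.Helper6.SI
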